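import Pool.Agent.R167.CL.Low
import Pool.Agent.R167.CL.Prof
import Pool.Agent.R167.CL.Ineq
import Pool.Agent.R167.CL.AreaH
import Pool.Agent.R167.CL.Plane
import Pool.Agent.R167.CL.Space

/-!
# Reflected copies pack every convex body in space with density at least `0.43`

Every convex body `K` in `ℝ³` has a packing by the sets `K + u` and `v - K + u`, `u` in a lattice,
of density at least `0.43`.  Hence `0.43 ≤ m_{L*} ≤ m_{T*}`.
-/

namespace Pool.Agent.Results.MP_3d065d_co.DoubleLatticePointFourThree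

open Pool.Agent.TH219.DL Pool.Agent.R167.CL

theorem result :
    (∀ K : Set (Fin 3 → ℝ), Body K → ENNReal.ofReal 0.43 ≤ dLs K ∧ dLs K ≤ dTs K) ∧
    ENNReal.ofReal 0.43 ≤ mn dLs ∧ mn dLs ≤ mn dTs := by
  have hlow : S_LOW := t_LOW (t_PROF t_INEQ) (t_PLANE t_AREA) t_SPACE
  refine ⟨fun K hK => ⟨dLs_low' hlow hK, dLs_le_dTs K⟩, ?_, ?_⟩
  · exact le_iInf₂ fun K hK => dLs_low' hlow hK
  · exact iInf₂_mono fun K _ => dLs_le_dTs K

end Pool.Agent.Results.MP_3d065d_co.DoubleLatticePointFourThree
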