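import Pool.Agent.R747.PkTop

/-!
# Every convex body in space has a lattice packing of density at least `√5/9 > 0.2484`

`dL`, `dT` are the suprema of the densities of the lattice packings and of the packings by
translates, `mn` is the minimum over all convex bodies (`Body`), see `Pool.Agent.TH219.DL.Defs`.

Proof: after a linear change of coordinates the least ellipsoid containing `K - K` is the unit ball.
One of its contact points `e` carries a weight at least `1/2` in John's decomposition; the projections
of the others along `e` form an isotropic measure of mass at most `5/2` in the plane, and a planar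
isotropic measure of mass `W` has two atoms whose cross product is at least `√3/W`. Hence two chords
of the shadow `S` of `K` along `e` span a parallelogram of area at least `2√3/5`, and the area of `S`
is at least half of this. The translates of `K` are arranged in columns along `e` over a lattice of
Fáry (density `2/3`) for `S`, of determinant `x ≤ (3/2)|S|`, and in the columns the next layer is
shifted horizontally to the deepest hole of the planar lattice, which is at distance at least
`√(2x/(3√3))` from all its points; the volume of `K` is at least `|S|/3`.
-/

namespace Pool.Agent.Results.MP_3d065d_co.LatticeSqrtFive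

open Pool.Agent.TH219.DL

theorem result :
    (∀ K : Set (Fin 3 → ℝ), Body K → ENNReal.ofReal (√5 / 9) ≤ dL K) ∧
      ENNReal.ofReal 0.2484 ≤ mn dL ∧ ENNReal.ofReal 0.2484 ≤ mn dT := by
  have h0 : (0.2484 : ℝ) ≤ √5 / 9 := by
    have h1 : (0.2484 * 9 : ℝ) ≤ √5 := Real.le_sqrt_of_sq_le (by norm_num)
    linarith
  have h1 : ∀ K : Set (Fin 3 → ℝ), Body K → ENNReal.ofReal 0.2484 ≤ dL K := fun K hK =>
    (ENNReal.ofReal_le_ofReal h0).trans (Pool.Agent.R747.Pk.low' hK)
  exact ⟨fun K hK => Pool.Agent.R747.Pk.low' hK, le_iInf₂ fun K hK => h1 K hK,
    le_iInf₂ fun K hK => (h1 K hK).trans (dL_le_dT K)⟩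

end Pool.Agent.Results.MP_3d065d_co.LatticeSqrtFive
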